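import Pool.Agent.Helper8.SPV.Stmts2

/-!
# The field `k(t, w)` as a function field, and the transcendence of `x` over it
-/

set_option autoImplicit false

namespace Pool.Agent.Helper8.SPV

open IntermediateField (adjoin)

section gb

variable {k L : Type} [Field k] [Field L] [Algebra k L]

theorem GAUSS_top {t w : L} :
    adjoin k {(⟨t, IntermediateField.subset_adjoin k {t, w} (by simp)⟩ : adjoin k {t, w}),
      ⟨w, IntermediateField.subset_adjoin k {t, w} (by simp)⟩} = ⊤ := by
  apply IntermediateField.lift_injective
  rw [IntermediateField.lift_adjoin, IntermediateField.lift_top]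
  congr 1
  rw [Set.image_pair]

/-- `F` is finite over `k(t)` -/
theorem GAUSS_ff {F : Type} [Field F] [Algebra k F] {t w : F} (ht : Transcendental k t)
    (hw : w ^ 2 = t ^ 3 + 1) (hgen : adjoin k {t, w} = ⊤) : IsFF k F := by
  refine ⟨t, ht, ?_⟩
  have hint : IsIntegral (adjoin k {t}) w := by
    refine ⟨Polynomial.X ^ 2 - Polynomial.C (⟨t, IntermediateField.mem_adjoin_simple_self k t⟩ ^ 3 + 1),
      ?_, ?_⟩
    · exact Polynomial.monic_X_pow_sub_C _ two_ne_zero
    · rw [Polynomial.eval₂_sub, Polynomial.eval₂_X_pow, Polynomial.eval₂_C, hw]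
      simp
  have hfin : FiniteDimensional (adjoin k {t}) (adjoin (adjoin k {t}) {w}) :=
    IntermediateField.adjoin.finiteDimensional hint
  have htop : adjoin (adjoin k {t}) {w} = ⊤ := by
    apply IntermediateField.restrictScalars_injective k
    rw [IntermediateField.adjoin_adjoin_left, IntermediateField.restrictScalars_top, ← hgen]
    rfl
  rw [htop] at hfin
  exact Module.Finite.equiv (IntermediateField.topEquiv (F := adjoin k {t}) (E := F)).toLinearEquiv

theorem GAUSS_trx {t w x : L} (h : AlgebraicIndependent k ![t, x]) (hw : w ^ 2 = t ^ 3 + 1) :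
    Transcendental (adjoin k {t, w}) x := by
  intro hx
  have h0 : Transcendental (Algebra.adjoin k {t}) x := by
    have h1 := h.transcendental_adjoin (s := {0}) (i := 1) (by simp)
    have e : (![t, x] '' {0} : Set L) = {t} := by
      rw [Set.image_singleton]
      rfl
    rw [e] at h1
    exact h1
  apply h0
  have hint : IsIntegral (adjoin k {t}) w := by
    refine ⟨Polynomial.X ^ 2 - Polynomial.C (⟨t, IntermediateField.mem_adjoin_simple_self k t⟩ ^ 3 + 1),
      ?_, ?_⟩
    · exact Polynomial.monic_X_pow_sub_C _ two_ne_zero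
    · rw [Polynomial.eval₂_sub, Polynomial.eval₂_X_pow, Polynomial.eval₂_C, hw]
      simp
  have hfin : FiniteDimensional (adjoin k {t}) (adjoin (adjoin k {t}) {w}) :=
    IntermediateField.adjoin.finiteDimensional hint
  have halg : Algebra.IsAlgebraic (adjoin k {t}) (adjoin (adjoin k {t}) {w}) :=
    Algebra.IsAlgebraic.of_finite _ _
  have e : (adjoin (adjoin k {t}) {w}).restrictScalars k = adjoin k {t, w} := by
    rw [IntermediateField.adjoin_adjoin_left]
    rfl
  rw [← e] at hx
  have hx1 : IsAlgebraic (adjoin (adjoin k {t}) {w}) x := hx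
  have hx2 : IsAlgebraic (adjoin k {t}) x := hx1.restrictScalars _
  open scoped IntermediateField.algebraAdjoinAdjoin in
  exact hx2.restrictScalars (Algebra.adjoin k {t})

end gb

end Pool.Agent.Helper8.SPV
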