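import Pool.Agent.Helper8.SPV.Stmts2
import Pool.Agent.Helper8.SPV.PLib

/-!
# The invariant derivation of `w² = t³ + 1` preserves all the valuation rings
-/

set_option autoImplicit false

namespace Pool.Agent.Helper8.SPV

open IntermediateField (adjoin)

section gc

variable {k F : Type} [Field k] [Field F] [Algebra k F]

theorem GAUSS_loc {q : Pl k F} (hq : q.Laws) (A : Subalgebra k F) (τ : F)
    (hA : ∀ f ∈ A, f ∈ q.O) (hτ : q.M τ) (hτ0 : τ ≠ 0)
    (hdec : ∀ f ∈ A, ∃ c : k, ∃ g ∈ A, f = algebraMap k F c + τ * g)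
    (hfrac : ∀ f : F, ∃ a ∈ A, ∃ d ∈ A, d ≠ 0 ∧ f * d = a)
    (δ : F → F) (hmul : ∀ u v, δ (u * v) = u * δ v + v * δ u)
    (hδA : ∀ f ∈ A, δ f ∈ A) : ∀ f ∈ q.O, δ f ∈ q.O := by
  have hdiv : ∀ f ∈ A, q.M f → ∃ g ∈ A, f = τ * g := by
    intro f hf hM
    obtain ⟨c, g, hg, h⟩ := hdec f hf
    by_cases hc : c = 0
    · exact ⟨g, hg, by rw [h, hc, map_zero, zero_add]⟩
    · exfalso
      have h1 : q.Ge 1 (algebraMap k F c) := by
        have e : algebraMap k F c = f - τ * g := by rw [h]; ring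
        rw [e]
        refine hq.ge_sub ((hq.M_iff_ge f).mp hM) ?_
        have h2 := hq.ge_mul ((hq.M_iff_ge τ).mp hτ) ((hq.mem_iff_ge g).mp (hA g hg))
        rwa [add_zero] at h2
      rw [hq.ge_iff _ _ ((map_ne_zero _).mpr hc), hq.ord_const] at h1
      omega
  have hτ1 : 1 ≤ q.ord τ := by
    have := (hq.M_iff_ge τ).mp hτ
    rwa [hq.ge_iff _ _ hτ0] at this
  have key : ∀ n : ℕ, ∀ a ∈ A, ∀ d ∈ A, d ≠ 0 → (q.ord d).toNat ≤ n → ∀ f ∈ q.O, f * d = a →
      δ f ∈ q.O := by
    intro n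
    induction n with
    | zero =>
      intro a ha d hd hd0 hn f hf hfd
      have h1 : 0 ≤ q.ord d := (hq.mem_iff d hd0).mp (hA d hd)
      have h2 : q.ord d = 0 := by omega
      obtain ⟨-, -, hU⟩ := (hq.U_iff d).mpr ⟨hd0, h2⟩
      have h3 := hmul f d
      rw [hfd] at h3
      have h4 : δ f = d⁻¹ * (δ a - f * δ d) := by
        rw [h3]
        field_simp
        ring
      rw [h4]
      exact q.O.mul_mem _ _ hU (q.O.sub_mem (hA _ (hδA a ha))
        (q.O.mul_mem _ _ hf (hA _ (hδA d hd))))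
    | succ n ih =>
      intro a ha d hd hd0 hn f hf hfd
      have h1 : 0 ≤ q.ord d := (hq.mem_iff d hd0).mp (hA d hd)
      by_cases h2 : q.ord d = 0
      · exact ih a ha d hd hd0 (by omega) f hf hfd
      · have hMd : q.M d := by
          rw [hq.M_iff_ge, hq.ge_iff _ _ hd0]
          omega
        obtain ⟨d', hd', hdd⟩ := hdiv d hd hMd
        have hMa : q.M a := by
          rw [hq.M_iff_ge, ← hfd]
          have h3 := hq.ge_mul ((hq.mem_iff_ge f).mp hf) ((hq.M_iff_ge d).mp hMd)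
          rwa [zero_add] at h3
        obtain ⟨a', ha', haa⟩ := hdiv a ha hMa
        have hd'0 : d' ≠ 0 := by
          rintro rfl
          exact hd0 (by rw [hdd, mul_zero])
        refine ih a' ha' d' hd' hd'0 ?_ f hf ?_
        · have h4 : q.ord d = q.ord τ + q.ord d' := by rw [hdd, hq.ord_mul _ _ hτ0 hd'0]
          have h5 : 0 ≤ q.ord d' := (hq.mem_iff d' hd'0).mp (hA d' hd')
          omega
        · refine mul_left_cancel₀ hτ0 ?_
          rw [← haa, ← hfd, hdd]
          ring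
  intro f hf
  obtain ⟨a, ha, d, hd, hd0, hfd⟩ := hfrac f
  exact key _ a ha d hd hd0 le_rfl f hf hfd

theorem GAUSS_dec (S : Set F) (τ : F) (hτ : τ ∈ Algebra.adjoin k S)
    (h : ∀ s ∈ S, ∃ c : k, ∃ g ∈ Algebra.adjoin k S, s = algebraMap k F c + τ * g) :
    ∀ f ∈ Algebra.adjoin k S, ∃ c : k, ∃ g ∈ Algebra.adjoin k S,
      f = algebraMap k F c + τ * g := by
  intro f hf
  induction hf using Algebra.adjoin_induction with
  | mem s hs => exact h s hs
  | algebraMap c => exact ⟨c, 0, zero_mem _, by simp⟩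
  | add u v _ _ hu hv =>
    obtain ⟨c, g, hg, e⟩ := hu
    obtain ⟨c', g', hg', e'⟩ := hv
    exact ⟨c + c', g + g', add_mem hg hg', by rw [e, e', map_add]; ring⟩
  | mul u v _ _ hu hv =>
    obtain ⟨c, g, hg, e⟩ := hu
    obtain ⟨c', g', hg', e'⟩ := hv
    refine ⟨c * c', algebraMap k F c * g' + algebraMap k F c' * g + τ * (g * g'), ?_, ?_⟩
    · exact add_mem (add_mem (mul_mem (Subalgebra.algebraMap_mem _ c) hg')
        (mul_mem (Subalgebra.algebraMap_mem _ c') hg)) (mul_mem hτ (mul_mem hg hg'))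
    · rw [e, e', map_mul]
      ring

theorem GAUSS_fracs (A : Subalgebra k F) (T : Set F) (hT : adjoin k T = ⊤)
    (h : ∀ f ∈ T, ∃ a ∈ A, ∃ d ∈ A, d ≠ 0 ∧ f * d = a) (f : F) :
    ∃ a ∈ A, ∃ d ∈ A, d ≠ 0 ∧ f * d = a := by
  have hf : f ∈ adjoin k T := by
    rw [hT]
    exact IntermediateField.mem_top
  induction hf using IntermediateField.adjoin_induction with
  | mem s hs => exact h s hs
  | algebraMap c => exact ⟨algebraMap k F c, Subalgebra.algebraMap_mem _ c, 1, one_mem _,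
      one_ne_zero, mul_one _⟩
  | add u v _ _ hu hv =>
    obtain ⟨a, ha, d, hd, hd0, e⟩ := hu
    obtain ⟨a', ha', d', hd', hd0', e'⟩ := hv
    exact ⟨a * d' + a' * d, add_mem (mul_mem ha hd') (mul_mem ha' hd), d * d', mul_mem hd hd',
      mul_ne_zero hd0 hd0', by rw [← e, ← e']; ring⟩
  | inv u _ hu =>
    obtain ⟨a, ha, d, hd, hd0, e⟩ := hu
    by_cases hu0 : u = 0
    · exact ⟨0, zero_mem _, 1, one_mem _, one_ne_zero, by rw [hu0, inv_zero, zero_mul]⟩
    · refine ⟨d, hd, a, ha, ?_, ?_⟩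
      · rw [← e]
        exact mul_ne_zero hu0 hd0
      · rw [← e]
        field_simp
  | mul u v _ _ hu hv =>
    obtain ⟨a, ha, d, hd, hd0, e⟩ := hu
    obtain ⟨a', ha', d', hd', hd0', e'⟩ := hv
    exact ⟨a * a', mul_mem ha ha', d * d', mul_mem hd hd',
      mul_ne_zero hd0 hd0', by rw [← e, ← e']; ring⟩

theorem GAUSS_pres (S : Set F) (δ : F → F) (hadd : ∀ u v, δ (u + v) = δ u + δ v)
    (hmul : ∀ u v, δ (u * v) = u * δ v + v * δ u) (hk : ∀ c : k, δ (algebraMap k F c) = 0)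
    (h : ∀ s ∈ S, δ s ∈ Algebra.adjoin k S) :
    ∀ f ∈ Algebra.adjoin k S, δ f ∈ Algebra.adjoin k S := by
  intro f hf
  induction hf using Algebra.adjoin_induction with
  | mem s hs => exact h s hs
  | algebraMap c =>
    rw [hk]
    exact zero_mem _
  | add u v _ _ hu hv =>
    rw [hadd]
    exact add_mem hu hv
  | mul u v hu' hv' hu hv =>
    rw [hmul]
    exact add_mem (mul_mem hu' hv) (mul_mem hv' hu)

theorem GAUSS_sub {q : Pl k F} (S : Set F) (h : ∀ s ∈ S, s ∈ q.O) :
    ∀ f ∈ Algebra.adjoin k S, f ∈ q.O := by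
  intro f hf
  induction hf using Algebra.adjoin_induction with
  | mem s hs => exact h s hs
  | algebraMap c => exact q.mem c
  | add u v _ _ hu hv => exact q.O.add_mem _ _ hu hv
  | mul u v _ _ hu hv => exact q.O.mul_mem _ _ hu hv

/-- a derivation of a field, as a function -/
theorem GAUSS_dinv (δ : F → F) (hmul : ∀ u v, δ (u * v) = u * δ v + v * δ u) (u : F)
    (hu : u ≠ 0) : δ u⁻¹ = -δ u * u⁻¹ * u⁻¹ := by
  have h1 : δ 1 = 0 := by
    have h1 := hmul 1 1
    rw [mul_one, one_mul] at h1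
    exact left_eq_add.mp h1
  have h2 := hmul u u⁻¹
  rw [mul_inv_cancel₀ hu, h1] at h2
  refine mul_left_cancel₀ hu ?_
  field_simp
  field_simp at h2
  linear_combination -h2

/-- the finite places -/
theorem GAUSS_fin [CharZero k] {q : Pl k F} (hq : q.Laws) {t w : F} (ht : Transcendental k t)
    (hw : w ^ 2 = t ^ 3 + 1) (hgen : adjoin k {t, w} = ⊤) (δ : F → F)
    (hadd : ∀ u v, δ (u + v) = δ u + δ v)
    (hmul : ∀ u v, δ (u * v) = u * δ v + v * δ u) (hk : ∀ c : k, δ (algebraMap k F c) = 0)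
    (hδt : δ t = 2 * w) (hδw : δ w = 3 * t ^ 2) (htO : t ∈ q.O) :
    ∀ f ∈ q.O, δ f ∈ q.O := by
  have hF0 : CharZero F := charZero_of_injective_algebraMap (algebraMap k F).injective
  have hw0 : w ≠ 0 := by
    rintro rfl
    apply ht
    refine ⟨Polynomial.X ^ 3 + 1, ?_, ?_⟩
    · have : (Polynomial.X ^ 3 + Polynomial.C 1 : Polynomial k).natDegree = 3 := by
        compute_degree!
      intro h0
      rw [Polynomial.C_1, h0, Polynomial.natDegree_zero] at this
      omega
    · simp only [map_add, map_pow, Polynomial.aeval_X, map_one]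
      rw [← hw]
      ring
  have hwO : w ∈ q.O := by
    rcases q.O.mem_or_inv_mem w with h | h
    · exact h
    · have e : w = w ^ 2 * w⁻¹ := by field_simp
      rw [e, hw]
      exact q.O.mul_mem _ _ (q.O.add_mem _ _ (pow_mem htO 3) q.O.one_mem) h
  obtain ⟨t0, ht0⟩ := hq.res t htO
  obtain ⟨w0, hw0'⟩ := hq.res w hwO
  have ht0g := (hq.M_iff_ge _).mp ht0
  have hw0g := (hq.M_iff_ge _).mp hw0'
  have hcl : ∀ c : k, q.Ge 1 (algebraMap k F c) → c = 0 := by
    intro c hc
    by_contra h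
    rw [hq.ge_iff _ _ ((map_ne_zero _).mpr h), hq.ord_const] at hc
    omega
  have hunit : ∀ (u : F) (c : k), c ≠ 0 → q.Ge 1 (u - algebraMap k F c) → u ≠ 0 ∧ u⁻¹ ∈ q.O := by
    intro u c hc h
    have hu0 : u ≠ 0 := by
      rintro rfl
      rw [zero_sub] at h
      have h1 := hq.ge_neg h
      rw [neg_neg] at h1
      exact hc (hcl c h1)
    refine ⟨hu0, ?_⟩
    rw [hq.mem_iff _ (inv_ne_zero hu0), hq.ord_inv]
    by_contra hlt
    have h1 : q.Ge 1 u := by
      rw [hq.ge_iff _ _ hu0]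
      omega
    have h2 := hq.ge_sub h1 h
    rw [sub_sub_cancel] at h2
    exact hc (hcl c h2)
  have hg : ∀ (u v : F), q.Ge 1 u → v ∈ q.O → q.Ge 1 (u * v) := by
    intro u v hu hv
    have h1 := hq.ge_mul hu ((hq.mem_iff_ge v).mp hv)
    rwa [add_zero] at h1
  set T0 := algebraMap k F t0 with hT0
  set W0 := algebraMap k F w0 with hW0
  have hT0O : T0 ∈ q.O := q.mem t0
  have hW0O : W0 ∈ q.O := q.mem w0
  have hrel : w0 ^ 2 = t0 ^ 3 + 1 := by
    have h1 : q.Ge 1 (algebraMap k F (w0 ^ 2 - (t0 ^ 3 + 1))) := by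
      have e : algebraMap k F (w0 ^ 2 - (t0 ^ 3 + 1)) =
          (t - T0) * (t ^ 2 + t * T0 + T0 ^ 2) - (w - W0) * (w + W0) := by
        rw [map_sub, map_add, map_pow, map_pow, map_one, ← hT0, ← hW0]
        linear_combination hw
      rw [e]
      refine hq.ge_sub (hg _ _ ht0g ?_) (hg _ _ hw0g (q.O.add_mem _ _ hwO hW0O))
      exact q.O.add_mem _ _ (q.O.add_mem _ _ (pow_mem htO 2) (q.O.mul_mem _ _ htO hT0O))
        (pow_mem hT0O 2)
    exact sub_eq_zero.mp (hcl _ h1)
  have hrelF : W0 ^ 2 = T0 ^ 3 + 1 := by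
    rw [hT0, hW0, ← map_pow, hrel, map_add, map_pow, map_one]
  have hτt : t - T0 ≠ 0 := by
    intro h0
    rw [sub_eq_zero] at h0
    apply ht
    rw [h0]
    exact isAlgebraic_algebraMap t0
  by_cases hw00 : w0 = 0
  · -- branch point
    have hW00 : W0 = 0 := by rw [hW0, hw00, map_zero]
    have ht00 : t0 ≠ 0 := by
      rintro rfl
      rw [hw00] at hrel
      norm_num at hrel
    have hT00 : T0 ≠ 0 := (map_ne_zero _).mpr ht00
    set v := t ^ 2 + t * T0 + T0 ^ 2 with hv
    have hvt : v - algebraMap k F (3 * t0 ^ 2) = (t - T0) * (t + 2 * T0) := by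
      rw [map_mul, map_pow, map_ofNat, ← hT0, hv]
      ring
    have h2O : (2 : F) ∈ q.O := by
      have := q.mem 2
      rwa [map_ofNat] at this
    obtain ⟨hv0, hviO⟩ := hunit v (3 * t0 ^ 2) (by
      refine mul_ne_zero (by norm_num) (pow_ne_zero 2 ht00)) (by
      rw [hvt]
      exact hg _ _ ht0g (q.O.add_mem _ _ htO (q.O.mul_mem _ _ h2O hT0O)))
    have hvw : (t - T0) * v = w ^ 2 := by
      rw [hv, hw]
      rw [hW00] at hrelF
      linear_combination hrelF
    set S : Set F := {t, w, v⁻¹} with hS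
    have mt : t ∈ Algebra.adjoin k S := Algebra.subset_adjoin (by simp [hS])
    have mw : w ∈ Algebra.adjoin k S := Algebra.subset_adjoin (by simp [hS])
    have mv : v⁻¹ ∈ Algebra.adjoin k S := Algebra.subset_adjoin (by simp [hS])
    have mk : ∀ c : k, algebraMap k F c ∈ Algebra.adjoin k S := fun c =>
      Subalgebra.algebraMap_mem _ c
    have m2 : (2 : F) ∈ Algebra.adjoin k S := by
      have := mk 2
      rwa [map_ofNat] at this
    have m3 : (3 : F) ∈ Algebra.adjoin k S := by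
      have := mk 3
      rwa [map_ofNat] at this
    have h3T : (3 * T0 ^ 2 : F) ≠ 0 := mul_ne_zero (by norm_num) (pow_ne_zero 2 hT00)
    refine GAUSS_loc hq (Algebra.adjoin k S) w ?_ ?_ hw0 ?_ ?_ δ hmul ?_
    · refine GAUSS_sub S ?_
      rintro s (rfl | rfl | rfl)
      · exact htO
      · exact hwO
      · exact hviO
    · rw [hq.M_iff_ge]
      rwa [hW00, sub_zero] at hw0g
    · refine GAUSS_dec S w mw ?_
      rintro s (rfl | rfl | rfl)
      · refine ⟨t0, w * v⁻¹, mul_mem mw mv, ?_⟩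
        rw [← hT0]
        field_simp
        linear_combination hvw
      · exact ⟨0, 1, one_mem _, by simp⟩
      · refine ⟨(3 * t0 ^ 2)⁻¹, -(w * v⁻¹ * v⁻¹ * (t + 2 * T0) * algebraMap k F (3 * t0 ^ 2)⁻¹), ?_, ?_⟩
        · exact neg_mem (mul_mem (mul_mem (mul_mem (mul_mem mw mv) mv)
            (add_mem mt (mul_mem m2 (mk t0)))) (mk _))
        · rw [map_inv₀, map_mul, map_pow, map_ofNat, ← hT0]
          field_simp
          have e1 : v - 3 * T0 ^ 2 = (t - T0) * (t + 2 * T0) := by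
            rw [← hvt, map_mul, map_pow, map_ofNat, ← hT0]
          linear_combination (-v) * e1 - (t + 2 * T0) * hvw
    · refine GAUSS_fracs _ {t, w} hgen ?_
      rintro f (rfl | rfl)
      · exact ⟨f, mt, 1, one_mem _, one_ne_zero, mul_one _⟩
      · exact ⟨f, mw, 1, one_mem _, one_ne_zero, mul_one _⟩
    · refine GAUSS_pres S δ hadd hmul hk ?_
      rintro s (rfl | rfl | rfl)
      · rw [hδt]
        exact mul_mem m2 mw
      · rw [hδw]
        exact mul_mem m3 (pow_mem mt 2)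
      · rw [GAUSS_dinv δ hmul v hv0]
        have hδv : δ v = (2 * t + T0) * (2 * w) := by
          rw [hv, pow_two, pow_two, hadd, hadd, hmul, hmul, hmul, hδt, hk]
          ring
        rw [hδv]
        exact mul_mem (mul_mem (neg_mem (mul_mem (add_mem (mul_mem m2 mt) (mk t0))
          (mul_mem m2 mw))) mv) mv
  · -- ordinary point
    have hW00 : W0 ≠ 0 := (map_ne_zero _).mpr hw00
    set u := w + W0 with hu
    obtain ⟨hu0, huiO⟩ := hunit u (2 * w0) (mul_ne_zero (by norm_num) hw00) (by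
      have e : u - algebraMap k F (2 * w0) = w - W0 := by
        rw [map_mul, map_ofNat, ← hW0, hu]
        ring
      rw [e]
      exact hw0g)
    have huw : (w - W0) * u = (t - T0) * (t ^ 2 + t * T0 + T0 ^ 2) := by
      rw [hu]
      linear_combination hw - hrelF
    set S : Set F := {t, w, u⁻¹} with hS
    have mt : t ∈ Algebra.adjoin k S := Algebra.subset_adjoin (by simp [hS])
    have mw : w ∈ Algebra.adjoin k S := Algebra.subset_adjoin (by simp [hS])
    have mu : u⁻¹ ∈ Algebra.adjoin k S := Algebra.subset_adjoin (by simp [hS])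
    have mk : ∀ c : k, algebraMap k F c ∈ Algebra.adjoin k S := fun c =>
      Subalgebra.algebraMap_mem _ c
    have m2 : (2 : F) ∈ Algebra.adjoin k S := by
      have := mk 2
      rwa [map_ofNat] at this
    have m3 : (3 : F) ∈ Algebra.adjoin k S := by
      have := mk 3
      rwa [map_ofNat] at this
    have mq : t ^ 2 + t * T0 + T0 ^ 2 ∈ Algebra.adjoin k S :=
      add_mem (add_mem (pow_mem mt 2) (mul_mem mt (mk t0))) (pow_mem (mk t0) 2)
    refine GAUSS_loc hq (Algebra.adjoin k S) (t - T0) ?_ ?_ hτt ?_ ?_ δ hmul ?_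
    · refine GAUSS_sub S ?_
      rintro s (rfl | rfl | rfl)
      · exact htO
      · exact hwO
      · exact huiO
    · exact ht0
    · refine GAUSS_dec S (t - T0) (sub_mem mt (mk t0)) ?_
      rintro s (rfl | rfl | rfl)
      · exact ⟨t0, 1, one_mem _, by rw [← hT0]; ring⟩
      · refine ⟨w0, (t ^ 2 + t * T0 + T0 ^ 2) * u⁻¹, mul_mem mq mu, ?_⟩
        rw [← hW0]
        field_simp
        linear_combination huw
      · refine ⟨(2 * w0)⁻¹, -((t ^ 2 + t * T0 + T0 ^ 2) * u⁻¹ * u⁻¹ *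
          algebraMap k F (2 * w0)⁻¹), ?_, ?_⟩
        · exact neg_mem (mul_mem (mul_mem (mul_mem mq mu) mu) (mk _))
        · rw [map_inv₀, map_mul, map_ofNat, ← hW0]
          field_simp
          have e1 : u - 2 * W0 = w - W0 := by
            rw [hu]
            ring
          linear_combination (-u) * e1 - huw
    · refine GAUSS_fracs _ {t, w} hgen ?_
      rintro f (rfl | rfl)
      · exact ⟨f, mt, 1, one_mem _, one_ne_zero, mul_one _⟩
      · exact ⟨f, mw, 1, one_mem _, one_ne_zero, mul_one _⟩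
    · refine GAUSS_pres S δ hadd hmul hk ?_
      rintro s (rfl | rfl | rfl)
      · rw [hδt]
        exact mul_mem m2 mw
      · rw [hδw]
        exact mul_mem m3 (pow_mem mt 2)
      · rw [GAUSS_dinv δ hmul u hu0]
        have hδu : δ u = 3 * t ^ 2 := by
          rw [hu, hadd, hδw, hk, add_zero]
        rw [hδu]
        exact mul_mem (mul_mem (neg_mem (mul_mem m3 (pow_mem mt 2))) mu) mu

/-- the infinite places -/
theorem GAUSS_inf [CharZero k] {q : Pl k F} (hq : q.Laws) {t w : F}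
    (hw : w ^ 2 = t ^ 3 + 1) (hgen : adjoin k {t, w} = ⊤) (δ : F → F)
    (hadd : ∀ u v, δ (u + v) = δ u + δ v)
    (hmul : ∀ u v, δ (u * v) = u * δ v + v * δ u) (hk : ∀ c : k, δ (algebraMap k F c) = 0)
    (hδt : δ t = 2 * w) (hδw : δ w = 3 * t ^ 2) (htO : t ∉ q.O) :
    (∀ f ∈ q.O, δ f ∈ q.O) ∧ w ≠ 0 ∧ t ≠ 0 ∧ t / w ∈ q.O ∧ (t / w) ^ 2 * t ∈ q.O := by
  have hF0 : CharZero F := charZero_of_injective_algebraMap (algebraMap k F).injective
  have ht0 : t ≠ 0 := by
    rintro rfl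
    exact htO q.O.zero_mem
  have hot : q.ord t < 0 := by
    by_contra h
    exact htO ((hq.mem_iff t ht0).mpr (not_lt.mp h))
  have h3 : t ^ 3 + 1 ≠ 0 ∧ q.ord (t ^ 3 + 1) = q.ord (t ^ 3) := by
    refine hq.ord_add_of_lt _ _ (pow_ne_zero 3 ht0) (Or.inr ?_)
    rw [hq.ord_one, hq.ord_pow]
    push_cast
    omega
  have hw0 : w ≠ 0 := by
    rintro rfl
    rw [zero_pow two_ne_zero] at hw
    exact h3.1 hw.symm
  have how : 2 * q.ord w = 3 * q.ord t := by
    have h4 := h3.2
    rw [← hw, hq.ord_pow, hq.ord_pow] at h4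
    push_cast at h4
    exact h4
  set s := t / w with hs
  set r := w⁻¹ with hr
  have hs0 : s ≠ 0 := div_ne_zero ht0 hw0
  have hr0 : r ≠ 0 := inv_ne_zero hw0
  have hos : 1 ≤ q.ord s := by
    rw [hs, hq.ord_div _ _ ht0 hw0]
    omega
  have hor : 1 ≤ q.ord r := by
    rw [hr, hq.ord_inv]
    omega
  have hsM : q.M s := by
    rw [hq.M_iff_ge, hq.ge_iff _ _ hs0]
    exact hos
  have hsO : s ∈ q.O := hsM.1
  have hrO : r ∈ q.O := by
    rw [hq.mem_iff _ hr0]
    omega
  set n := 1 - r ^ 2 with hn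
  have hnt : s ^ 2 * t = n := by
    rw [hs, hn, hr]
    field_simp
    linear_combination -hw
  have hrs : r * n = s ^ 3 := by
    rw [hs, hn, hr]
    field_simp
    linear_combination hw
  have hn1 : n ≠ 0 ∧ q.ord n = q.ord 1 := by
    rw [hn, sub_eq_add_neg]
    refine hq.ord_add_of_lt _ _ one_ne_zero (Or.inr ?_)
    rw [hq.ord_one, hq.ord_neg, hq.ord_pow]
    push_cast
    omega
  have hn0 := hn1.1
  have hnO : n⁻¹ ∈ q.O := by
    rw [hq.mem_iff _ (inv_ne_zero hn0), hq.ord_inv, hn1.2, hq.ord_one]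
    omega
  refine ⟨?_, hw0, ht0, hsO, ?_⟩
  swap
  · rw [hnt, hn]
    exact q.O.sub_mem q.O.one_mem (pow_mem hrO 2)
  set S : Set F := {s, r, n⁻¹} with hS
  have ms : s ∈ Algebra.adjoin k S := Algebra.subset_adjoin (by simp [hS])
  have mr : r ∈ Algebra.adjoin k S := Algebra.subset_adjoin (by simp [hS])
  have mn : n⁻¹ ∈ Algebra.adjoin k S := Algebra.subset_adjoin (by simp [hS])
  have mk : ∀ c : k, algebraMap k F c ∈ Algebra.adjoin k S := fun c =>
    Subalgebra.algebraMap_mem _ c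
  have m2 : (2 : F) ∈ Algebra.adjoin k S := by
    have := mk 2
    rwa [map_ofNat] at this
  have m3 : (3 : F) ∈ Algebra.adjoin k S := by
    have := mk 3
    rwa [map_ofNat] at this
  have hδr : δ r = -3 * s ^ 2 := by
    rw [hr, GAUSS_dinv δ hmul w hw0, hδw, hs]
    field_simp
  have hδs : δ s = -1 + 3 * r ^ 2 := by
    have e : s = t * r := by rw [hs, hr, div_eq_mul_inv]
    rw [e, hmul, hδr, hδt, hs, hr]
    field_simp
    linear_combination 3 * hw
  refine GAUSS_loc hq (Algebra.adjoin k S) s ?_ hsM hs0 ?_ ?_ δ hmul ?_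
  · refine GAUSS_sub S ?_
    rintro f (rfl | rfl | rfl)
    · exact hsO
    · exact hrO
    · exact hnO
  · refine GAUSS_dec S s ms ?_
    rintro f (rfl | rfl | rfl)
    · exact ⟨0, 1, one_mem _, by simp⟩
    · refine ⟨0, s ^ 2 * n⁻¹, mul_mem (pow_mem ms 2) mn, ?_⟩
      rw [map_zero, zero_add]
      field_simp
      linear_combination hrs
    · refine ⟨1, s ^ 2 * n⁻¹ * r * n⁻¹, mul_mem (mul_mem (mul_mem (pow_mem ms 2) mn) mr) mn, ?_⟩
      rw [map_one]
      field_simp
      linear_combination (-n) * hn + r * hrs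
  · refine GAUSS_fracs _ {t, w} hgen ?_
    rintro f (rfl | rfl)
    · refine ⟨s, ms, r, mr, hr0, ?_⟩
      rw [hs, hr, div_eq_mul_inv]
    · refine ⟨1, one_mem _, r, mr, hr0, ?_⟩
      rw [hr, mul_inv_cancel₀ hw0]
  · refine GAUSS_pres S δ hadd hmul hk ?_
    rintro f (rfl | rfl | rfl)
    · rw [hδs]
      exact add_mem (neg_mem (one_mem _)) (mul_mem m3 (pow_mem mr 2))
    · rw [hδr]
      exact mul_mem (neg_mem m3) (pow_mem ms 2)
    · rw [GAUSS_dinv δ hmul n hn0]
      have h1 : δ 1 = 0 := by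
        have := hk 1
        rwa [map_one] at this
      have hδn : δ n = 6 * r * s ^ 2 := by
        have e : (n : F) + r * r = 1 := by
          rw [hn]
          ring
        have e2 := congrArg δ e
        rw [hadd, hmul, hδr, h1] at e2
        linear_combination e2
      have m6 : (6 : F) ∈ Algebra.adjoin k S := by
        have := mk 6
        rwa [map_ofNat] at this
      rw [hδn]
      exact mul_mem (mul_mem (neg_mem (mul_mem (mul_mem m6 mr) (pow_mem ms 2))) mn) mn

end gc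

end Pool.Agent.Helper8.SPV
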