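import Pool.Agent.Helper99.SPV.GAUSSA
import Pool.Agent.Helper99.SPV.GAUSSB
import Pool.Agent.Helper99.SPV.GAUSSC

/-!
# Gauss valuations over all the places of `k(t, w)`
-/

set_option autoImplicit false

namespace Pool.Agent.Helper8.SPV

open IntermediateField (adjoin)

section gd

variable {k F L : Type} [Field k] [Field F] [Field L] [Algebra k F] [Algebra F L] [Algebra k L]
  [IsScalarTower k F L]

/-- the construction over one place -/
theorem GAUSS_one (h2 : ST_DEREXT) [CharZero k] (O : ValuationSubring F)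
    (hk : ∀ c : k, algebraMap k F c ∈ O) (D1 : Derivation ℤ F F)
    (hD1k : ∀ c : k, D1 (algebraMap k F c) = 0) (hD1 : ∀ f ∈ O, D1 f ∈ O) (a4 a6 : O) (x y : L)
    (hx : Transcendental F x)
    (hy : y ^ 2 = x ^ 3 + algebraMap F L a4 * x + algebraMap F L a6)
    (hgen : adjoin F {x, y} = ⊤) :
    ∃ R : ValuationSubring L, R.comap (algebraMap F L) = O ∧
      ∃ D : Derivation k L L, (∀ f : F, D (algebraMap F L f) = algebraMap F L (D1 f)) ∧
        ∀ f ∈ R, D f ∈ R := by
  have hF0 : CharZero F := charZero_of_injective_algebraMap (algebraMap k F).injective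
  obtain ⟨D2, hD2, hD2x⟩ := (h2 F L ((Algebra.linearMap F L).compDer D1)).2 x hx 0
  have hD2' : ∀ f : F, D2 (algebraMap F L f) = algebraMap F L (D1 f) := fun f => hD2 f
  have hmul : ∀ u v, D2 (u * v) = u * D2 v + v * D2 u := by
    intro u v
    rw [D2.leibniz, smul_eq_mul, smul_eq_mul]
  refine ⟨GAUSS_R O hx hy hgen, GAUSS_comap O hx hy hgen,
    Derivation.mk' (R := k)
      ({ toFun := fun f => D2 f
         map_add' := fun u v => map_add D2 u v
         map_smul' := ?_ } : L →ₗ[k] L) ?_, fun f => hD2' f, ?_⟩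
  · intro c f
    rw [RingHom.id_apply, Algebra.smul_def, Algebra.smul_def, IsScalarTower.algebraMap_apply k F L,
      hmul, hD2', hD1k, map_zero, mul_zero, add_zero]
  · intro u v
    exact D2.leibniz u v
  · refine GAUSS_der O hx hy hgen two_ne_zero ?_ D2 (fun u v => map_add D2 u v) hmul ?_ hD2x
    · have := hk (2 : k)⁻¹
      rwa [map_inv₀, map_ofNat] at this
    · intro c
      exact ⟨⟨D1 c, hD1 c c.2⟩, hD2' c⟩

theorem GAUSS_Qf (b : Fin 10 → k) (t : F) :
    algebraMap F L (Qf b t) = Qf b (algebraMap F L t) := by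
  unfold Qf
  rw [map_sum]
  refine Finset.sum_congr rfl fun j _ => ?_
  rw [map_mul, map_pow, ← IsScalarTower.algebraMap_apply]

end gd

theorem st_GAUSS (h1 : ST_PL1) (h2 : ST_DEREXT) : ST_GAUSS := by
  intro k L _ _ _ _ _ b t w x y hES q
  set tF : adjoin k {t, w} := ⟨t, IntermediateField.subset_adjoin k {t, w} (by simp)⟩ with htF
  set wF : adjoin k {t, w} := ⟨w, IntermediateField.subset_adjoin k {t, w} (by simp)⟩ with hwF
  have htop : adjoin k {tF, wF} = ⊤ := GAUSS_top
  have ht : Transcendental k t := by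
    have := hES.indep.transcendental 0
    exact this
  have htF' : Transcendental k tF := by
    intro h
    apply ht
    exact (h.algebraMap (A := L))
  have ew : wF ^ 2 = tF ^ 3 + 1 := Subtype.ext hES.pt.e1
  have hFF : IsFF k (adjoin k {t, w}) := GAUSS_ff htF' ew htop
  have hq : q.Laws := h1 k _ hFF q
  have hF0 : CharZero (adjoin k {t, w}) :=
    charZero_of_injective_algebraMap (algebraMap k (adjoin k {t, w})).injective
  have hw0 : wF ≠ 0 := by
    intro h0
    apply htF'
    refine ⟨Polynomial.X ^ 3 + 1, ?_, ?_⟩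
    · have : (Polynomial.X ^ 3 + Polynomial.C 1 : Polynomial k).natDegree = 3 := by
        compute_degree!
      intro h0
      rw [Polynomial.C_1, h0, Polynomial.natDegree_zero] at this
      omega
    · simp only [map_add, map_pow, Polynomial.aeval_X, map_one]
      rw [← ew, h0]
      ring
  obtain ⟨D1, hD1k, hD1t⟩ := (h2 k (adjoin k {t, w}) 0).2 tF htF' (2 * wF)
  have hD1k' : ∀ c : k, D1 (algebraMap k _ c) = 0 := fun c => by rw [hD1k]; rfl
  have hmul : ∀ u v, D1 (u * v) = u * D1 v + v * D1 u := by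
    intro u v
    rw [D1.leibniz, smul_eq_mul, smul_eq_mul]
  have hadd : ∀ u v, D1 (u + v) = D1 u + D1 v := fun u v => map_add D1 u v
  have hD1w : D1 wF = 3 * tF ^ 2 := by
    have e := congrArg D1 ew
    rw [hadd, pow_two, hmul, pow_succ, pow_two, hmul, hmul, hD1t, Derivation.map_one_eq_zero] at e
    refine mul_left_cancel₀ (mul_ne_zero two_ne_zero hw0) ?_
    linear_combination e
  have hx : Transcendental (adjoin k {t, w}) x := GAUSS_trx hES.indep hES.pt.e1
  have hgenL : adjoin (adjoin k {t, w}) {x, y} = ⊤ := by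
    apply IntermediateField.restrictScalars_injective k
    rw [IntermediateField.adjoin_adjoin_left, IntermediateField.restrictScalars_top, ← hES.gen]
    congr 1
    ext z
    simp only [Set.mem_union, Set.mem_insert_iff, Set.mem_singleton_iff]
    tauto
  have hQ : algebraMap (adjoin k {t, w}) L (Qf b tF) = Qf b t := GAUSS_Qf b tF
  have hmain : ∀ (a4 a6 : q.O) (x' y' : L), Transcendental (adjoin k {t, w}) x' →
      y' ^ 2 = x' ^ 3 + algebraMap (adjoin k {t, w}) L a4 * x' +
        algebraMap (adjoin k {t, w}) L a6 →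
      adjoin (adjoin k {t, w}) {x', y'} = ⊤ → (∀ f ∈ q.O, D1 f ∈ q.O) →
      ∃ R : ValuationSubring L, R.comap (algebraMap (adjoin k {t, w}) L) = q.O ∧
        ∃ D : Derivation k L L, D t = 2 * w ∧ D w = 3 * t ^ 2 ∧ ∀ f ∈ R, D f ∈ R := by
    intro a4 a6 x' y' hx' hy' hg' hO
    obtain ⟨R, hR, D, hD, hDR⟩ := GAUSS_one (k := k) h2 q.O q.mem D1 hD1k' hO a4 a6 x' y' hx' hy' hg'
    refine ⟨R, hR, D, ?_, ?_, hDR⟩
    · have e := hD tF
      rw [hD1t, map_mul, map_ofNat] at e
      exact e
    · have e := hD wF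
      rw [hD1w, map_mul, map_ofNat, map_pow] at e
      exact e
  by_cases htO : tF ∈ q.O
  · have hQO : Qf b tF ∈ q.O := by
      unfold Qf
      refine sum_mem fun j _ => ?_
      exact mul_mem (q.mem _) (pow_mem htO _)
    refine hmain 1 ⟨_, hQO⟩ x y hx ?_ hgenL
      (GAUSS_fin hq htF' ew htop D1 hadd hmul hD1k' hD1t hD1w htO)
    rw [hES.pt.e2]
    have e : algebraMap (adjoin k {t, w}) L ((1 : q.O) : adjoin k {t, w}) = 1 := by
      rw [OneMemClass.coe_one, map_one]
    rw [e, one_mul]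
    change x ^ 3 + x + Qf b t = x ^ 3 + x + algebraMap (adjoin k {t, w}) L (Qf b tF)
    rw [hQ]
  · obtain ⟨hpres, -, ht0, hsO, hs2⟩ :=
      GAUSS_inf hq ew htop D1 hadd hmul hD1k' hD1t hD1w htO
    set s := tF / wF with hs
    have hs0 : s ≠ 0 := div_ne_zero ht0 hw0
    have hsL : algebraMap (adjoin k {t, w}) L s ≠ 0 := (map_ne_zero _).mpr hs0
    have hQO : s ^ 18 * Qf b tF ∈ q.O := by
      unfold Qf
      rw [Finset.mul_sum]
      refine sum_mem fun j _ => ?_
      have e : s ^ 18 * (algebraMap k (adjoin k {t, w}) (b j) * tF ^ (j : ℕ)) =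
          algebraMap k (adjoin k {t, w}) (b j) * (s ^ (18 - 2 * (j : ℕ)) *
            (s ^ 2 * tF) ^ (j : ℕ)) := by
        have h18 : s ^ 18 = s ^ (18 - 2 * (j : ℕ)) * (s ^ 2) ^ (j : ℕ) := by
          rw [← pow_mul, ← pow_add]
          congr 1
          have := j.2
          omega
        rw [h18, mul_pow]
        ring
      rw [e]
      exact mul_mem (q.mem _) (mul_mem (pow_mem hsO _) (pow_mem hs2 _))
    set sL := algebraMap (adjoin k {t, w}) L s with hsLdef
    refine hmain ⟨s ^ 12, pow_mem hsO 12⟩ ⟨_, hQO⟩ (sL ^ 6 * x) (sL ^ 9 * y) ?_ ?_ ?_ hpres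
    · intro h
      apply hx
      have e : x = algebraMap (adjoin k {t, w}) L (s ^ 6)⁻¹ * (sL ^ 6 * x) := by
        rw [map_inv₀, map_pow, ← hsLdef]
        field_simp
      rw [e]
      exact (isAlgebraic_algebraMap _).mul h
    · change (sL ^ 9 * y) ^ 2 = (sL ^ 6 * x) ^ 3 + algebraMap (adjoin k {t, w}) L (s ^ 12) *
        (sL ^ 6 * x) + algebraMap (adjoin k {t, w}) L (s ^ 18 * Qf b tF)
      rw [map_mul, map_pow, map_pow, hQ, ← hsLdef]
      linear_combination sL ^ 18 * hES.pt.e2
    · rw [eq_top_iff, ← hgenL, IntermediateField.adjoin_le_iff]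
      have m1 : sL ^ 6 * x ∈ adjoin (adjoin k {t, w}) {sL ^ 6 * x, sL ^ 9 * y} :=
        IntermediateField.subset_adjoin _ _ (by simp)
      have m2 : sL ^ 9 * y ∈ adjoin (adjoin k {t, w}) {sL ^ 6 * x, sL ^ 9 * y} :=
        IntermediateField.subset_adjoin _ _ (by simp)
      have m3 : ∀ n : ℕ, (sL ^ n)⁻¹ ∈ adjoin (adjoin k {t, w}) {sL ^ 6 * x, sL ^ 9 * y} :=
        fun n => inv_mem (pow_mem (IntermediateField.algebraMap_mem _ s) n)
      have m4 := mul_mem (m3 6) m1
      have m5 := mul_mem (m3 9) m2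
      rw [inv_mul_cancel_left₀ (pow_ne_zero 6 hsL)] at m4
      rw [inv_mul_cancel_left₀ (pow_ne_zero 9 hsL)] at m5
      rintro z hz
      rcases hz with hz | hz
      · rw [SetLike.mem_coe, hz]
        exact m4
      · rw [Set.mem_singleton_iff] at hz
        rw [SetLike.mem_coe, hz]
        exact m5

end Pool.Agent.Helper8.SPV
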