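import Mathlib

/-!
# Gauss extension of a valuation ring to `F(X)(√(X³ + a₄X + a₆))`
-/

set_option autoImplicit false

namespace Pool.Agent.Helper8.SPV

open Polynomial

section ga

variable {F L : Type} [Field F] [Field L] [Algebra F L]

/-- evaluation of polynomials with coefficients in `O` -/
noncomputable def GAUSS_ev (O : ValuationSubring F) (X : L) : O[X] →+* L :=
  ((aeval X : F[X] →ₐ[F] L) : F[X] →+* L).comp (mapRingHom O.subtype)

theorem GAUSS_ev_C (O : ValuationSubring F) (X : L) (c : O) :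
    GAUSS_ev O X (C c) = algebraMap F L c := by
  simp [GAUSS_ev]

theorem GAUSS_ev_X (O : ValuationSubring F) (x : L) : GAUSS_ev O x X = x := by
  simp [GAUSS_ev]

theorem GAUSS_ev_inj (O : ValuationSubring F) {x : L} (hx : Transcendental F x) :
    Function.Injective (GAUSS_ev O x) := by
  intro a b h
  have h1 : mapRingHom O.subtype a = mapRingHom O.subtype b :=
    (transcendental_iff_injective.mp hx) h
  exact Polynomial.map_injective _ Subtype.val_injective h1

/-- reduction modulo the maximal ideal -/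
noncomputable def GAUSS_rho (O : ValuationSubring F) : O[X] →+* (IsLocalRing.ResidueField O)[X] :=
  mapRingHom (IsLocalRing.residue O)

theorem GAUSS_parity {κ : Type} [Field κ] (p q : κ) {a b : κ[X]}
    (h : a ^ 2 = b ^ 2 * (X ^ 3 + C p * X + C q)) : a = 0 ∧ b = 0 := by
  have hP : (X ^ 3 + C p * X + C q : κ[X]).natDegree = 3 := by compute_degree!
  have hP0 : (X ^ 3 + C p * X + C q : κ[X]) ≠ 0 := by
    intro h0
    rw [h0, natDegree_zero] at hP
    omega
  by_cases hb : b = 0
  · subst hb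
    refine ⟨?_, rfl⟩
    rw [zero_pow two_ne_zero, zero_mul] at h
    exact pow_eq_zero_iff two_ne_zero |>.mp h
  · exfalso
    have h1 := congrArg natDegree h
    rw [natDegree_pow, natDegree_mul (pow_ne_zero 2 hb) hP0, natDegree_pow, hP] at h1
    omega

theorem GAUSS_norm (O : ValuationSubring F) (a b : F[X]) (h : a ≠ 0 ∨ b ≠ 0) :
    ∃ (c : F) (a' b' : O[X]), c ≠ 0 ∧ C c * mapRingHom O.subtype a' = a ∧
      C c * mapRingHom O.subtype b' = b ∧ (GAUSS_rho O a' ≠ 0 ∨ GAUSS_rho O b' ≠ 0) := by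
  classical
  set S : Finset F := a.support.image a.coeff ∪ b.support.image b.coeff with hS
  have hSne : S.Nonempty := by
    rcases h with h | h
    · obtain ⟨n, hn⟩ := nonempty_support_iff.mpr h
      exact ⟨a.coeff n, Finset.mem_union_left _ (Finset.mem_image_of_mem _ hn)⟩
    · obtain ⟨n, hn⟩ := nonempty_support_iff.mpr h
      exact ⟨b.coeff n, Finset.mem_union_right _ (Finset.mem_image_of_mem _ hn)⟩
  obtain ⟨c, hc, hmax⟩ := Finset.exists_max_image S O.valuation hSne
  have hc0 : c ≠ 0 := by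
    rw [hS, Finset.mem_union, Finset.mem_image, Finset.mem_image] at hc
    rcases hc with ⟨n, hn, rfl⟩ | ⟨n, hn, rfl⟩
    · exact mem_support_iff.mp hn
    · exact mem_support_iff.mp hn
  have key : ∀ x : F, (x = 0 ∨ x ∈ S) → c⁻¹ * x ∈ O := by
    intro x hx
    rcases hx with rfl | hx
    · rw [mul_zero]
      exact O.zero_mem
    · rw [← O.valuation_le_one_iff, map_mul, map_inv₀]
      have h1 : O.valuation c ≠ 0 := (O.valuation.ne_zero_iff).mpr hc0
      rw [inv_mul_le_one₀ (zero_lt_iff.mpr h1)]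
      exact hmax x hx
  have hA : ∀ p : F[X], (∀ n, p.coeff n = 0 ∨ p.coeff n ∈ S) →
      ∃ p' : O[X], mapRingHom O.subtype p' = C c⁻¹ * p := by
    intro p hp
    have : C c⁻¹ * p ∈ lifts O.subtype := by
      rw [lifts_iff_coeff_lifts]
      intro n
      refine ⟨⟨c⁻¹ * p.coeff n, key _ (hp n)⟩, ?_⟩
      rw [coeff_C_mul]
      rfl
    rw [mem_lifts] at this
    obtain ⟨p', hp'⟩ := this
    exact ⟨p', hp'⟩
  have ha : ∀ n, a.coeff n = 0 ∨ a.coeff n ∈ S := by
    intro n
    by_cases hn : a.coeff n = 0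
    · exact Or.inl hn
    · exact Or.inr (Finset.mem_union_left _ (Finset.mem_image_of_mem _ (mem_support_iff.mpr hn)))
  have hb : ∀ n, b.coeff n = 0 ∨ b.coeff n ∈ S := by
    intro n
    by_cases hn : b.coeff n = 0
    · exact Or.inl hn
    · exact Or.inr (Finset.mem_union_right _ (Finset.mem_image_of_mem _ (mem_support_iff.mpr hn)))
  obtain ⟨a', ha'⟩ := hA a ha
  obtain ⟨b', hb'⟩ := hA b hb
  have hcc : C c * C c⁻¹ = (1 : F[X]) := by
    rw [← C_mul, mul_inv_cancel₀ hc0, C_1]
  have hne : ∀ (p : F[X]) (p' : O[X]), mapRingHom O.subtype p' = C c⁻¹ * p →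
      (∃ n, p.coeff n = c) → GAUSS_rho O p' ≠ 0 := by
    rintro p p' hp ⟨n, hn⟩ h0
    have h1 := congrArg (fun q => q.coeff n) hp
    simp only [coe_mapRingHom, coeff_map, coeff_C_mul] at h1
    rw [hn, inv_mul_cancel₀ hc0] at h1
    have h2 : p'.coeff n = 1 := Subtype.ext h1
    have h3 := congrArg (fun q => q.coeff n) h0
    simp only [GAUSS_rho, coe_mapRingHom, coeff_map, coeff_zero] at h3
    rw [h2, map_one] at h3
    exact one_ne_zero h3
  refine ⟨c, a', b', hc0, by rw [ha', ← mul_assoc, hcc, one_mul],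
    by rw [hb', ← mul_assoc, hcc, one_mul], ?_⟩
  rw [hS, Finset.mem_union, Finset.mem_image, Finset.mem_image] at hc
  rcases hc with ⟨n, -, hn⟩ | ⟨n, -, hn⟩
  · exact Or.inl (hne a a' ha' ⟨n, hn⟩)
  · exact Or.inr (hne b b' hb' ⟨n, hn⟩)

/-- every element of `F(x, y)` is `(a + b y) / d` -/
theorem GAUSS_rep {x y : L} {a4 a6 : F} (hx : Transcendental F x)
    (hy : y ^ 2 = x ^ 3 + algebraMap F L a4 * x + algebraMap F L a6)
    (hgen : IntermediateField.adjoin F {x, y} = ⊤) (f : L) :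
    ∃ a b d : F[X], d ≠ 0 ∧ f * aeval x d = aeval x a + aeval x b * y := by
  have hinj : Function.Injective (aeval x : F[X] →ₐ[F] L) := transcendental_iff_injective.mp hx
  set P : F[X] := X ^ 3 + C a4 * X + C a6 with hP
  have hPe : aeval x P = y ^ 2 := by
    rw [hy, hP]
    simp
  have hf : f ∈ IntermediateField.adjoin F {x, y} := by
    rw [hgen]
    exact IntermediateField.mem_top
  induction hf using IntermediateField.adjoin_induction with
  | mem z hz =>
    rcases hz with rfl | hz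
    · exact ⟨X, 0, 1, one_ne_zero, by simp⟩
    · rw [Set.mem_singleton_iff] at hz
      subst hz
      exact ⟨0, 1, 1, one_ne_zero, by simp⟩
  | algebraMap c => exact ⟨C c, 0, 1, one_ne_zero, by simp⟩
  | add u v _ _ hu hv =>
    obtain ⟨a, b, d, hd, h⟩ := hu
    obtain ⟨a', b', d', hd', h'⟩ := hv
    refine ⟨a * d' + a' * d, b * d' + b' * d, d * d', mul_ne_zero hd hd', ?_⟩
    simp only [map_mul, map_add]
    linear_combination (aeval x d') * h + (aeval x d) * h'
  | inv u _ hu =>
    obtain ⟨a, b, d, hd, h⟩ := hu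
    by_cases hu0 : u = 0
    · subst hu0
      exact ⟨0, 0, 1, one_ne_zero, by simp⟩
    have hN : a ^ 2 - b ^ 2 * P ≠ 0 := by
      intro h0
      obtain ⟨h1, h2⟩ := GAUSS_parity a4 a6 (sub_eq_zero.mp h0)
      rw [h1, h2, map_zero, zero_mul, add_zero] at h
      have h3 : aeval x d ≠ 0 := (map_ne_zero_iff _ hinj).mpr hd
      exact mul_ne_zero hu0 h3 h
    refine ⟨d * a, -(d * b), a ^ 2 - b ^ 2 * P, hN, ?_⟩
    have h4 : aeval x a + aeval x b * y = u * aeval x d := h.symm
    rw [inv_mul_eq_iff_eq_mul₀ hu0]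
    simp only [map_mul, map_sub, map_pow, map_neg, hPe]
    linear_combination (aeval x a - aeval x b * y) * h4
  | mul u v _ _ hu hv =>
    obtain ⟨a, b, d, hd, h⟩ := hu
    obtain ⟨a', b', d', hd', h'⟩ := hv
    refine ⟨a * a' + b * b' * P, a * b' + a' * b, d * d', mul_ne_zero hd hd', ?_⟩
    simp only [map_mul, map_add, hPe]
    linear_combination (v * aeval x d') * h + (aeval x a + aeval x b * y) * h'

/-- membership in the Gauss ring -/
def GAUSS_mem (O : ValuationSubring F) (x y : L) (f : L) : Prop :=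
  ∃ a b d : O[X], GAUSS_rho O d ≠ 0 ∧
    f * GAUSS_ev O x d = GAUSS_ev O x a + GAUSS_ev O x b * y

theorem GAUSS_ev_ne (O : ValuationSubring F) {x : L} (hx : Transcendental F x) {d : O[X]}
    (hd : GAUSS_rho O d ≠ 0) : GAUSS_ev O x d ≠ 0 := by
  intro h
  rw [← map_zero (GAUSS_ev O x)] at h
  rw [GAUSS_ev_inj O hx h, map_zero] at hd
  exact hd rfl

/-- the Gauss ring -/
noncomputable def GAUSS_R (O : ValuationSubring F) {x y : L} {a4 a6 : O}
    (hx : Transcendental F x)
    (hy : y ^ 2 = x ^ 3 + algebraMap F L a4 * x + algebraMap F L a6)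
    (hgen : IntermediateField.adjoin F {x, y} = ⊤) : ValuationSubring L where
  carrier := {f | GAUSS_mem O x y f}
  mul_mem' := by
    rintro u v ⟨a, b, d, hd, h⟩ ⟨a', b', d', hd', h'⟩
    refine ⟨a * a' + b * b' * (X ^ 3 + C a4 * X + C a6), a * b' + a' * b, d * d',
      by rw [map_mul]; exact mul_ne_zero hd hd', ?_⟩
    simp only [map_mul, map_add, map_pow, GAUSS_ev_C, GAUSS_ev_X]
    linear_combination (v * GAUSS_ev O x d') * h + (GAUSS_ev O x a + GAUSS_ev O x b * y) * h' +
      GAUSS_ev O x b * GAUSS_ev O x b' * hy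
  add_mem' := by
    rintro u v ⟨a, b, d, hd, h⟩ ⟨a', b', d', hd', h'⟩
    refine ⟨a * d' + a' * d, b * d' + b' * d, d * d',
      by rw [map_mul]; exact mul_ne_zero hd hd', ?_⟩
    simp only [map_mul, map_add]
    linear_combination (GAUSS_ev O x d') * h + (GAUSS_ev O x d) * h'
  one_mem' := ⟨1, 0, 1, by rw [map_one]; exact one_ne_zero, by simp⟩
  zero_mem' := ⟨0, 0, 1, by rw [map_one]; exact one_ne_zero, by simp⟩
  neg_mem' := by
    rintro u ⟨a, b, d, hd, h⟩
    refine ⟨-a, -b, d, hd, ?_⟩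
    simp only [map_neg]
    linear_combination -h
  mem_or_inv_mem' := by
    intro f
    by_cases hf0 : f = 0
    · subst hf0
      exact Or.inl ⟨0, 0, 1, by rw [map_one]; exact one_ne_zero, by simp⟩
    obtain ⟨a, b, d, hd, h⟩ := GAUSS_rep hx hy hgen f
    have hinj : Function.Injective (aeval x : F[X] →ₐ[F] L) := transcendental_iff_injective.mp hx
    have hab : a ≠ 0 ∨ b ≠ 0 := by
      by_contra h0
      push Not at h0
      obtain ⟨h1, h2⟩ := h0
      rw [h1, h2, map_zero, zero_mul, add_zero] at h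
      exact mul_ne_zero hf0 ((map_ne_zero_iff _ hinj).mpr hd) h
    obtain ⟨c1, a', b', hc1, ha', hb', hr⟩ := GAUSS_norm O a b hab
    obtain ⟨c2, d', e', hc2, hd', he', hr2⟩ := GAUSS_norm O d 0 (Or.inl hd)
    have he0 : e' = 0 := by
      have h1 : mapRingHom O.subtype e' = 0 := by
        rcases mul_eq_zero.mp he' with h2 | h2
        · exact absurd (C_eq_zero.mp h2) hc2
        · exact h2
      exact (Polynomial.map_injective O.subtype Subtype.val_injective) (by simpa using h1)
    have hd'0 : GAUSS_rho O d' ≠ 0 := by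
      rcases hr2 with h1 | h1
      · exact h1
      · rw [he0, map_zero] at h1
        exact absurd rfl h1
    have hev : ∀ (c : F) (p : F[X]) (p' : O[X]), C c * mapRingHom O.subtype p' = p →
        aeval x p = algebraMap F L c * GAUSS_ev O x p' := by
      rintro c p p' rfl
      rw [map_mul, aeval_C]
      rfl
    rw [hev c1 a a' ha', hev c1 b b' hb', hev c2 d d' hd'] at h
    have hc1' : algebraMap F L c1 ≠ 0 := (_root_.map_ne_zero _).mpr hc1
    have hc2' : algebraMap F L c2 ≠ 0 := (_root_.map_ne_zero _).mpr hc2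
    rcases O.mem_or_inv_mem (c1 / c2) with hc | hc
    · left
      refine ⟨C ⟨_, hc⟩ * a', C ⟨_, hc⟩ * b', d', hd'0, ?_⟩
      rw [map_mul, map_mul, GAUSS_ev_C]
      have e1 : algebraMap F L (c1 / c2) * algebraMap F L c2 = algebraMap F L c1 := by
        rw [← map_mul, div_mul_cancel₀ _ hc2]
      refine mul_left_cancel₀ hc2' ?_
      linear_combination h - (GAUSS_ev O x a' + GAUSS_ev O x b' * y) * e1
    · right
      rw [inv_div] at hc
      have hN : GAUSS_rho O (a' ^ 2 - b' ^ 2 * (X ^ 3 + C a4 * X + C a6)) ≠ 0 := by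
        intro h0
        rw [map_sub, sub_eq_zero, map_mul, map_pow, map_pow, map_add, map_add, map_mul,
          map_pow] at h0
        simp only [GAUSS_rho, coe_mapRingHom, map_X, map_C] at h0 hr
        obtain ⟨h1, h2⟩ := GAUSS_parity _ _ h0
        rcases hr with h3 | h3
        · exact h3 h1
        · exact h3 h2
      refine ⟨C ⟨_, hc⟩ * d' * a', -(C ⟨_, hc⟩ * d' * b'), _, hN, ?_⟩
      simp only [map_mul, map_add, map_pow, map_neg, map_sub, GAUSS_ev_C, GAUSS_ev_X]
      have e1 : algebraMap F L (c2 / c1) * algebraMap F L c1 = algebraMap F L c2 := by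
        rw [← map_mul, div_mul_cancel₀ _ hc1]
      rw [inv_mul_eq_iff_eq_mul₀ hf0]
      refine mul_left_cancel₀ hc1' ?_
      linear_combination (GAUSS_ev O x b' ^ 2 * algebraMap F L c1) * hy -
        (GAUSS_ev O x a' - GAUSS_ev O x b' * y) * h +
        (f * GAUSS_ev O x d' * (GAUSS_ev O x b' * y - GAUSS_ev O x a')) * e1

theorem GAUSS_R_mem (O : ValuationSubring F) {x y : L} {a4 a6 : O}
    (hx : Transcendental F x)
    (hy : y ^ 2 = x ^ 3 + algebraMap F L a4 * x + algebraMap F L a6)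
    (hgen : IntermediateField.adjoin F {x, y} = ⊤) (f : L) :
    f ∈ GAUSS_R O hx hy hgen ↔ GAUSS_mem O x y f := Iff.rfl

theorem GAUSS_comap (O : ValuationSubring F) {x y : L} {a4 a6 : O}
    (hx : Transcendental F x)
    (hy : y ^ 2 = x ^ 3 + algebraMap F L a4 * x + algebraMap F L a6)
    (hgen : IntermediateField.adjoin F {x, y} = ⊤) :
    (GAUSS_R O hx hy hgen).comap (algebraMap F L) = O := by
  ext c
  rw [ValuationSubring.mem_comap, GAUSS_R_mem]
  constructor
  · rintro ⟨a, b, d, hd, h⟩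
    by_contra hc
    have hc0 : c ≠ 0 := by
      rintro rfl
      exact hc O.zero_mem
    have hci : c⁻¹ ∈ O := (O.mem_or_inv_mem c).resolve_left hc
    set e : O := ⟨c⁻¹, hci⟩ with he
    have hres : IsLocalRing.residue O e = 0 := by
      rw [IsLocalRing.residue_eq_zero_iff, IsLocalRing.mem_maximalIdeal, mem_nonunits_iff]
      intro hu
      obtain ⟨v, hv⟩ := hu.exists_right_inv
      apply hc
      have h1 : c⁻¹ * (v : F) = 1 := congrArg Subtype.val hv
      have h2 : c = (v : F) := by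
        rw [← mul_one c, ← h1, mul_inv_cancel_left₀ hc0]
      rw [h2]
      exact v.2
    have hce : algebraMap F L e * algebraMap F L c = 1 := by
      rw [← map_mul, he]
      simp [inv_mul_cancel₀ hc0]
    have h1 : GAUSS_ev O x (d - C e * a) = GAUSS_ev O x (C e * b) * y := by
      simp only [map_sub, map_mul, GAUSS_ev_C]
      linear_combination (algebraMap F L e) * h - GAUSS_ev O x d * hce
    have h2 : GAUSS_ev O x ((d - C e * a) ^ 2) =
        GAUSS_ev O x ((C e * b) ^ 2 * (X ^ 3 + C a4 * X + C a6)) := by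
      rw [map_pow, h1, mul_pow, hy]
      simp only [map_add, map_mul, map_pow, GAUSS_ev_C, GAUSS_ev_X]
    have h3 := congrArg (GAUSS_rho O) (GAUSS_ev_inj O hx h2)
    simp only [map_pow, map_sub, map_mul] at h3
    have h4 : GAUSS_rho O (C e) = 0 := by
      simp [GAUSS_rho, hres]
    rw [h4, zero_mul, sub_zero, zero_mul, zero_pow two_ne_zero, zero_mul] at h3
    exact hd (pow_eq_zero_iff two_ne_zero |>.mp h3)
  · intro hc
    refine ⟨C ⟨c, hc⟩, 0, 1, by rw [map_one]; exact one_ne_zero, ?_⟩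
    rw [GAUSS_ev_C]
    simp

theorem GAUSS_der (O : ValuationSubring F) {x y : L} {a4 a6 : O}
    (hx : Transcendental F x)
    (hy : y ^ 2 = x ^ 3 + algebraMap F L a4 * x + algebraMap F L a6)
    (hgen : IntermediateField.adjoin F {x, y} = ⊤) (h2 : (2 : F) ≠ 0) (h2' : (2 : F)⁻¹ ∈ O)
    (D : L → L) (hadd : ∀ u v, D (u + v) = D u + D v)
    (hmul : ∀ u v, D (u * v) = u * D v + v * D u)
    (hO : ∀ c : O, ∃ c' : O, D (algebraMap F L c) = algebraMap F L c') (hDx : D x = 0) :
    ∀ f ∈ GAUSS_R O hx hy hgen, D f ∈ GAUSS_R O hx hy hgen := by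
  set R := GAUSS_R O hx hy hgen with hR
  have hOR : ∀ c : O, algebraMap F L c ∈ R := by
    intro c
    have h1 : (c : F) ∈ R.comap (algebraMap F L) := by
      rw [hR, GAUSS_comap]
      exact c.2
    exact h1
  have hxR : x ∈ R := ⟨X, 0, 1, by rw [map_one]; exact one_ne_zero, by simp [GAUSS_ev_X]⟩
  have hyR : y ∈ R := ⟨0, 1, 1, by rw [map_one]; exact one_ne_zero, by simp⟩
  have hevR : ∀ p : O[X], GAUSS_ev O x p ∈ R := fun p =>
    ⟨p, 0, 1, by rw [map_one]; exact one_ne_zero, by simp⟩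
  have hinvR : ∀ d : O[X], GAUSS_rho O d ≠ 0 → (GAUSS_ev O x d)⁻¹ ∈ R := fun d hd =>
    ⟨1, 0, d, hd, by rw [inv_mul_cancel₀ (GAUSS_ev_ne O hx hd)]; simp⟩
  have hD1 : D 1 = 0 := by
    have h1 := hmul 1 1
    rw [mul_one, one_mul] at h1
    exact (left_eq_add.mp h1)
  have hDpow : ∀ n : ℕ, D (x ^ n) = 0 := by
    intro n
    induction n with
    | zero => rw [pow_zero, hD1]
    | succ n ih => rw [pow_succ, hmul, ih, hDx]; ring
  have hDev : ∀ p : O[X], D (GAUSS_ev O x p) ∈ R := by
    intro p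
    induction p using Polynomial.induction_on with
    | C c =>
      obtain ⟨c', hc'⟩ := hO c
      rw [GAUSS_ev_C, hc']
      exact hOR c'
    | add p q hp hq =>
      rw [map_add, hadd]
      exact R.add_mem _ _ hp hq
    | monomial n c _ =>
      obtain ⟨c', hc'⟩ := hO c
      rw [map_mul, map_pow, GAUSS_ev_C, GAUSS_ev_X, hmul, hDpow, hc', mul_zero, zero_add]
      exact R.mul_mem _ _ (R.pow_mem hxR _) (hOR c')
  have hP : GAUSS_rho O (X ^ 3 + C a4 * X + C a6) ≠ 0 := by
    intro h0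
    simp only [GAUSS_rho, coe_mapRingHom, map_add, map_mul, map_pow, map_X, map_C] at h0
    have hdeg : (X ^ 3 + C (IsLocalRing.residue O a4) * X + C (IsLocalRing.residue O a6) :
      (IsLocalRing.ResidueField O)[X]).natDegree = 3 := by compute_degree!
    rw [h0, natDegree_zero] at hdeg
    omega
  have hy2 : GAUSS_ev O x (X ^ 3 + C a4 * X + C a6) = y ^ 2 := by
    rw [hy]
    simp only [map_add, map_mul, map_pow, GAUSS_ev_C, GAUSS_ev_X]
  have hy2R : (y ^ 2)⁻¹ ∈ R := by
    rw [← hy2]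
    exact hinvR _ hP
  have hy0 : y ≠ 0 := by
    rintro rfl
    rw [zero_pow two_ne_zero] at hy2
    exact GAUSS_ev_ne O hx hP hy2
  have hyiR : y⁻¹ ∈ R := by
    have : y⁻¹ = y * (y ^ 2)⁻¹ := by
      field_simp
    rw [this]
    exact R.mul_mem _ _ hyR hy2R
  have h2L : (2 : L) ≠ 0 := by
    rw [← map_ofNat (algebraMap F L) 2]
    exact (_root_.map_ne_zero _).mpr h2
  have h2R : (2 : L)⁻¹ ∈ R := by
    have h1 := hOR ⟨_, h2'⟩
    rw [map_inv₀, map_ofNat] at h1
    exact h1
  have hDy : D y ∈ R := by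
    have h3 : D (y ^ 2) = 2 * y * D y := by
      rw [pow_two, hmul]
      ring
    have h4 : D (y ^ 2) ∈ R := by
      rw [← hy2]
      exact hDev _
    have h5 : D y = 2⁻¹ * y⁻¹ * D (y ^ 2) := by
      rw [h3]
      field_simp
    rw [h5]
    exact R.mul_mem _ _ (R.mul_mem _ _ h2R hyiR) h4
  rintro f ⟨a, b, d, hd, h⟩
  have hfR : f ∈ R := ⟨a, b, d, hd, h⟩
  have hd0 := GAUSS_ev_ne O hx hd
  have h3 := congrArg D h
  rw [hmul, hadd, hmul] at h3
  have h4 : D f = (GAUSS_ev O x d)⁻¹ * (D (GAUSS_ev O x a) +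
      (GAUSS_ev O x b * D y + y * D (GAUSS_ev O x b)) - f * D (GAUSS_ev O x d)) := by
    rw [← h3]
    field_simp
    ring
  rw [h4]
  exact R.mul_mem _ _ (hinvR d hd) (R.sub_mem (R.add_mem _ _ (hDev a)
    (R.add_mem _ _ (R.mul_mem _ _ (hevR b) hDy) (R.mul_mem _ _ hyR (hDev b))))
    (R.mul_mem _ _ hfR (hDev d)))

end ga

end Pool.Agent.Helper8.SPV
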